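import Pool.Agent.D0H44.DM.Stm
import Pool.Agent.D0H82.FB.FM

set_option autoImplicit false

/-! Project DM, module ZM: moments of zeta. -/

namespace Pool.Agent.D0H85.DM

open Complex Filter Topology MeasureTheory Set
open Pool.Agent.TH612.GS
open Pool.Agent.D0H82.FB (z_weyl four_S)

theorem t_ZM : Pool.Agent.D0H44.DM.S_ZM := by
  intro k hk ε hε
  set δ : ℝ := ε / (4 * k) with hδ
  have hk0 : (0 : ℝ) < k := by exact_mod_cast hk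
  have hδ0 : 0 < δ := by rw [hδ]; positivity
  obtain ⟨C1, hC1, h1⟩ := z_weyl hδ0
  obtain ⟨D, hD, h2⟩ := four_S 0 hδ0
  refine ⟨(C1 * 2 ^ (1 / 6 + δ)) ^ (4 * k - 4) * D, fun T hT => ?_⟩
  have hT0 : 0 < T := by linarith
  set M : ℝ := C1 * 2 ^ (1 / 6 + δ) * T ^ (1 / 6 + δ) with hM
  have hzM : ∀ t ∈ Icc (0:ℝ) T, ‖z t‖ ≤ M := by
    intro t ht
    refine (h1 t).trans ?_
    have h3 : 1 + |t| ≤ 2 * T := by
      rw [abs_of_nonneg ht.1]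
      linarith [ht.2]
    have h6 : (1 + |t|) ^ (1 / 6 + δ) ≤ (2 * T) ^ (1 / 6 + δ) :=
      Real.rpow_le_rpow (by positivity) h3 (by positivity)
    rw [Real.mul_rpow (by norm_num) hT0.le] at h6
    calc C1 * (1 + |t|) ^ (1 / 6 + δ) ≤ C1 * (2 ^ (1 / 6 + δ) * T ^ (1 / 6 + δ)) := by gcongr
      _ = _ := by rw [hM]; ring
  have hM0 : 0 ≤ M := by positivity
  have hpt : ∀ t ∈ Icc (0:ℝ) T, (‖z t‖ ^ (2 * k)) ^ 2 ≤ M ^ (4 * k - 4) * ‖z t‖ ^ 4 := by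
    intro t ht
    have e : (‖z t‖ ^ (2 * k)) ^ 2 = ‖z t‖ ^ (4 * k - 4) * ‖z t‖ ^ 4 := by
      rw [← pow_mul, ← pow_add]
      congr 1
      omega
    rw [e]
    exact mul_le_mul_of_nonneg_right (pow_le_pow_left₀ (norm_nonneg _) (hzM t ht) _) (by positivity)
  have h8 : ∫ t in (0:ℝ)..T, (‖z t‖ ^ (2 * k)) ^ 2 ≤ ∫ t in (0:ℝ)..T, M ^ (4 * k - 4) * ‖z t‖ ^ 4 := by
    refine intervalIntegral.integral_mono_on hT0.le ?_ ?_ hpt
    · exact ((z_cont.norm.pow _).pow 2).intervalIntegrable _ _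
    · exact (continuous_const.mul (z_cont.norm.pow 4)).intervalIntegrable _ _
  rw [intervalIntegral.integral_const_mul] at h8
  have h9 := h2 T hT
  simp only [add_zero] at h9
  have h13 : M ^ (4 * k - 4) = (C1 * 2 ^ (1 / 6 + δ)) ^ (4 * k - 4) *
      T ^ ((1 / 6 + δ) * ((4 * k - 4 : ℕ) : ℝ)) := by
    rw [hM, mul_pow, ← Real.rpow_natCast (T ^ (1 / 6 + δ)), ← Real.rpow_mul hT0.le]
  have h14 : (1 / 6 + δ) * ((4 * k - 4 : ℕ) : ℝ) + (1 + δ) ≤ (2 * k + 1) / 3 + ε := by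
    have e : ((4 * k - 4 : ℕ) : ℝ) = 4 * k - 4 := by
      rw [Nat.cast_sub (by omega)]
      push_cast
      ring
    have e2 : δ * (4 * k) = ε := by rw [hδ]; field_simp
    rw [e]
    nlinarith
  calc ∫ t in (0:ℝ)..T, (‖z t‖ ^ (2 * k)) ^ 2
      ≤ M ^ (4 * k - 4) * ∫ t in (0:ℝ)..T, ‖z t‖ ^ 4 := h8
    _ ≤ M ^ (4 * k - 4) * (D * T ^ (1 + δ)) := by gcongr
    _ = (C1 * 2 ^ (1 / 6 + δ)) ^ (4 * k - 4) * D *
        T ^ ((1 / 6 + δ) * ((4 * k - 4 : ℕ) : ℝ) + (1 + δ)) := by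
        rw [h13, Real.rpow_add hT0 ((1 / 6 + δ) * ((4 * k - 4 : ℕ) : ℝ)) (1 + δ)]
        ring
    _ ≤ _ := by gcongr

end Pool.Agent.D0H85.DM
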