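import Pool.Agent.D0H44.DM.Stm

set_option autoImplicit false

/-! Project DM, module HS: harmonic sums over `[y/2, y)`. -/

namespace Pool.Agent.D0H85.DM

open Finset

lemma hs_low (p : ℕ) (hp : 1 ≤ p) (q : ℕ) (hq : p ≤ q) :
    Real.log q - Real.log p ≤ ∑ h ∈ Ico p q, (1 : ℝ) / h := by
  induction q, hq using Nat.le_induction with
  | base => simp
  | succ q hq ih =>
    rw [sum_Ico_succ_top hq]
    have hq0 : (0 : ℝ) < q := by exact_mod_cast (by omega : 0 < q)
    have h1 : Real.log ((q + 1 : ℕ) : ℝ) - Real.log q ≤ 1 / q := by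
      have e : ((q + 1 : ℕ) : ℝ) = q * (1 + 1 / q) := by push_cast; field_simp
      rw [e, Real.log_mul hq0.ne' (by positivity)]
      have := Real.log_le_sub_one_of_pos (show (0:ℝ) < 1 + 1 / q by positivity)
      linarith
    linarith

lemma hs_up (p : ℕ) (hp : 1 ≤ p) (q : ℕ) (hq : p ≤ q) :
    ∑ h ∈ Ico p (q + 1), (1 : ℝ) / h ≤ 1 / p + (Real.log q - Real.log p) := by
  induction q, hq using Nat.le_induction with
  | base => simp
  | succ q hq ih =>
    rw [sum_Ico_succ_top (by omega)]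
    have hq0 : (0 : ℝ) < q := by exact_mod_cast (by omega : 0 < q)
    have h1 : (1 : ℝ) / ((q + 1 : ℕ) : ℝ) ≤ Real.log ((q + 1 : ℕ) : ℝ) - Real.log q := by
      have hq1 : (0 : ℝ) < ((q + 1 : ℕ) : ℝ) := by positivity
      have e : Real.log ((q + 1 : ℕ) : ℝ) - Real.log q = - Real.log (q / ((q + 1 : ℕ) : ℝ)) := by
        rw [Real.log_div hq0.ne' hq1.ne']; ring
      rw [e]
      have := Real.log_le_sub_one_of_pos (show (0:ℝ) < q / ((q + 1 : ℕ) : ℝ) by positivity)
      have e2 : (q : ℝ) / ((q + 1 : ℕ) : ℝ) - 1 = - (1 / ((q + 1 : ℕ) : ℝ)) := by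
        field_simp
        push_cast
        ring
      rw [e2] at this
      linarith
    linarith

theorem t_HS : Pool.Agent.D0H44.DM.S_HS := by
  intro y hy
  have hl2 : 0 ≤ Real.log 2 := Real.log_nonneg (by norm_num)
  have hl2' : Real.log 2 ≤ 1 := by
    have := Real.log_le_sub_one_of_pos (show (0:ℝ) < 2 by norm_num)
    linarith
  rw [← sum_filter]
  rcases le_or_gt y 1 with h1 | h1
  · have e : (Icc 1 ⌈y⌉₊).filter (fun h : ℕ => y / 2 ≤ (h : ℝ) ∧ (h : ℝ) < y) = ∅ := by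
      rw [filter_eq_empty_iff]
      intro h hh hc
      have : (1 : ℝ) ≤ h := by exact_mod_cast (mem_Icc.1 hh).1
      linarith [hc.2]
    rw [e, sum_empty, zero_sub, abs_neg, abs_of_nonneg hl2]
    rw [le_div_iff₀ hy]
    nlinarith
  · have hp1 : 1 ≤ ⌈y / 2⌉₊ := Nat.one_le_ceil_iff.2 (by linarith)
    have hpq : ⌈y / 2⌉₊ ≤ ⌈y⌉₊ := Nat.ceil_mono (by linarith)
    have e : (Icc 1 ⌈y⌉₊).filter (fun h : ℕ => y / 2 ≤ (h : ℝ) ∧ (h : ℝ) < y) = Ico ⌈y / 2⌉₊ ⌈y⌉₊ := by
      ext h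
      rw [mem_filter, mem_Icc, mem_Ico, Nat.ceil_le, Nat.lt_ceil]
      constructor
      · rintro ⟨-, h3⟩
        exact h3
      · rintro ⟨h3, h4⟩
        refine ⟨⟨?_, ?_⟩, h3, h4⟩
        · have : (0 : ℝ) < h := by linarith
          exact_mod_cast this
        · exact (Nat.lt_ceil.2 h4).le
    rw [e]
    have hP : y / 2 ≤ (⌈y / 2⌉₊ : ℝ) := Nat.le_ceil _
    have hP' : (⌈y / 2⌉₊ : ℝ) < y / 2 + 1 := Nat.ceil_lt_add_one (by linarith)
    have hQ : y ≤ (⌈y⌉₊ : ℝ) := Nat.le_ceil _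
    have hP0 : (0 : ℝ) < (⌈y / 2⌉₊ : ℝ) := by linarith
    rw [abs_le]
    constructor
    · have h2 := hs_low _ hp1 _ hpq
      have h3 : Real.log y ≤ Real.log (⌈y⌉₊ : ℝ) := Real.log_le_log hy hQ
      have h4 : Real.log (⌈y / 2⌉₊ : ℝ) ≤ Real.log (y / 2 + 1) := Real.log_le_log hP0 hP'.le
      have h5 : Real.log (y / 2 + 1) = Real.log y - Real.log 2 + Real.log (1 + 2 / y) := by
        rw [← Real.log_div hy.ne' (by norm_num), ← Real.log_mul (by positivity) (by positivity)]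
        congr 1
        field_simp
      have h6 : Real.log (1 + 2 / y) ≤ 2 / y := by
        have := Real.log_le_sub_one_of_pos (show (0:ℝ) < 1 + 2 / y by positivity)
        linarith
      linarith
    · rcases hpq.eq_or_lt with h7 | h7
      · rw [h7, Ico_self, sum_empty]
        have : 0 ≤ 2 / y := by positivity
        linarith
      · obtain ⟨q, hq⟩ : ∃ q, ⌈y⌉₊ = q + 1 := ⟨⌈y⌉₊ - 1, by omega⟩
        have h8 := hs_up _ hp1 q (by omega)
        rw [hq]
        have hqy : (q : ℝ) < y := Nat.lt_ceil.1 (by omega)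
        have hq0 : (0 : ℝ) < q := by exact_mod_cast (by omega : 0 < q)
        have h9 : Real.log q ≤ Real.log y := Real.log_le_log hq0 hqy.le
        have h10 : Real.log (y / 2) ≤ Real.log (⌈y / 2⌉₊ : ℝ) := Real.log_le_log (by linarith) hP
        rw [Real.log_div hy.ne' (by norm_num)] at h10
        have h11 : (1 : ℝ) / (⌈y / 2⌉₊ : ℝ) ≤ 2 / y := by
          rw [div_le_div_iff₀ hP0 hy]
          linarith
        linarith

end Pool.Agent.D0H85.DM
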