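import Mathlib

set_option autoImplicit false

/-! Project DM: a bound for a function in a strip by the integrals over the two lines. -/

namespace Pool.Agent.D0H85.DM

open Complex MeasureTheory Set Filter Topology

noncomputable section

lemma kernel_im (u v : ℝ) :
    (((u : ℂ) + v * I)⁻¹).im = -v / (u ^ 2 + v ^ 2) := by
  rw [Complex.inv_im]
  simp only [add_re, ofReal_re, mul_re, I_re, mul_zero, ofReal_im, I_im, mul_one, sub_self, add_zero,
    add_im, mul_im, zero_add]
  rw [Complex.normSq_apply]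
  simp only [add_re, ofReal_re, mul_re, I_re, mul_zero, ofReal_im, I_im, mul_one, sub_self, add_zero,
    add_im, mul_im, zero_add]
  congr 1
  ring

lemma kernel_re (u v : ℝ) :
    (((u : ℂ) + v * I)⁻¹).re = u / (u ^ 2 + v ^ 2) := by
  rw [Complex.inv_re]
  simp only [add_re, ofReal_re, mul_re, I_re, mul_zero, ofReal_im, I_im, mul_one, sub_self, add_zero,
    add_im, mul_im, zero_add]
  rw [Complex.normSq_apply]
  simp only [add_re, ofReal_re, mul_re, I_re, mul_zero, ofReal_im, I_im, mul_one, sub_self, add_zero,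
    add_im, mul_im, zero_add]
  congr 1
  ring

lemma int_im {f : ℝ → ℂ} {a b : ℝ} (hf : IntervalIntegrable f volume a b) :
    (∫ x in a..b, f x).im = ∫ x in a..b, (f x).im :=
  (Complex.imCLM.intervalIntegral_comp_comm hf).symm

lemma int_re {f : ℝ → ℂ} {a b : ℝ} (hf : IntervalIntegrable f volume a b) :
    (∫ x in a..b, f x).re = ∫ x in a..b, (f x).re :=
  (Complex.reCLM.intervalIntegral_comp_comm hf).symm

variable {a b σ t Y : ℝ}

/-- horizontal sides of the kernel -/
lemma hor_int (η : ℝ) (hη : η ≠ t) : ContinuousOn (fun x : ℝ => ((x : ℂ) + η * I - (σ + t * I))⁻¹) univ := by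
  refine ContinuousOn.inv₀ (by fun_prop) fun x _ => ?_
  intro h
  have := congrArg Complex.im h
  simp at this
  exact hη (by linarith)

lemma ver_int (α : ℝ) (hα : α ≠ σ) : ContinuousOn (fun y : ℝ => ((α : ℂ) + y * I - (σ + t * I))⁻¹) univ := by
  refine ContinuousOn.inv₀ (by fun_prop) fun x _ => ?_
  intro h
  have := congrArg Complex.re h
  simp at this
  exact hα (by linarith)

/-- the rectangle integral of the kernel has imaginary part at least `1` -/
lemma W_ge (ha : a < σ) (hb : σ < b) (hY : 0 < Y) (hYb : b - σ ≤ Y) :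
    1 ≤ ‖(∫ x in a..b, ((x : ℂ) + ((t - Y : ℝ) : ℂ) * I - (σ + t * I))⁻¹) -
      (∫ x in a..b, ((x : ℂ) + ((t + Y : ℝ) : ℂ) * I - (σ + t * I))⁻¹) +
      I • (∫ y in (t - Y)..(t + Y), ((b : ℂ) + y * I - (σ + t * I))⁻¹) -
      I • (∫ y in (t - Y)..(t + Y), ((a : ℂ) + y * I - (σ + t * I))⁻¹)‖ := by
  refine le_trans ?_ (Complex.abs_im_le_norm _)
  refine le_trans ?_ (le_abs_self _)
  have i1 : IntervalIntegrable (fun x : ℝ => ((x : ℂ) + ((t - Y : ℝ) : ℂ) * I - (σ + t * I))⁻¹) volume a b :=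
    ((hor_int (t - Y) (by linarith)).mono (subset_univ _)).intervalIntegrable
  have i2 : IntervalIntegrable (fun x : ℝ => ((x : ℂ) + ((t + Y : ℝ) : ℂ) * I - (σ + t * I))⁻¹) volume a b :=
    ((hor_int (t + Y) (by linarith)).mono (subset_univ _)).intervalIntegrable
  have i3 : IntervalIntegrable (fun y : ℝ => ((b : ℂ) + y * I - (σ + t * I))⁻¹) volume (t - Y) (t + Y) :=
    ((ver_int b (by linarith)).mono (subset_univ _)).intervalIntegrable
  have i4 : IntervalIntegrable (fun y : ℝ => ((a : ℂ) + y * I - (σ + t * I))⁻¹) volume (t - Y) (t + Y) :=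
    ((ver_int a (by linarith)).mono (subset_univ _)).intervalIntegrable
  rw [sub_im, add_im, sub_im, smul_eq_mul, smul_eq_mul, I_mul_im, I_mul_im, int_im i1, int_im i2,
    int_re i3, int_re i4]
  have e1 : ∀ x : ℝ, (((x : ℂ) + ((t - Y : ℝ) : ℂ) * I - (σ + t * I))⁻¹).im =
      Y / ((x - σ) ^ 2 + Y ^ 2) := by
    intro x
    have : (x : ℂ) + ((t - Y : ℝ) : ℂ) * I - (σ + t * I) = ((x - σ : ℝ) : ℂ) + ((-Y : ℝ) : ℂ) * I := by
      push_cast; ring
    rw [this, kernel_im]
    congr 1 <;> ring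
  have e2 : ∀ x : ℝ, (((x : ℂ) + ((t + Y : ℝ) : ℂ) * I - (σ + t * I))⁻¹).im =
      -(Y / ((x - σ) ^ 2 + Y ^ 2)) := by
    intro x
    have : (x : ℂ) + ((t + Y : ℝ) : ℂ) * I - (σ + t * I) = ((x - σ : ℝ) : ℂ) + ((Y : ℝ) : ℂ) * I := by
      push_cast; ring
    rw [this, kernel_im]
    ring
  have hcb : 0 < b - σ := by linarith
  have hca : 0 < σ - a := by linarith
  have e3 : ∀ y : ℝ, (((b : ℂ) + y * I - (σ + t * I))⁻¹).re = (b - σ) / ((b - σ) ^ 2 + (y - t) ^ 2) := by
    intro y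
    have : (b : ℂ) + y * I - (σ + t * I) = ((b - σ : ℝ) : ℂ) + ((y - t : ℝ) : ℂ) * I := by
      push_cast; ring
    rw [this, kernel_re]
  have e4 : ∀ y : ℝ, (((a : ℂ) + y * I - (σ + t * I))⁻¹).re = -((σ - a) / ((σ - a) ^ 2 + (y - t) ^ 2)) := by
    intro y
    have : (a : ℂ) + y * I - (σ + t * I) = ((a - σ : ℝ) : ℂ) + ((y - t : ℝ) : ℂ) * I := by
      push_cast; ring
    rw [this, kernel_re]
    have : (a - σ) ^ 2 = (σ - a) ^ 2 := by ring
    rw [this, ← neg_div]
    congr 1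
    ring
  simp only [e1, e2, e3, e4]
  have f1 : 0 ≤ ∫ x in a..b, Y / ((x - σ) ^ 2 + Y ^ 2) :=
    intervalIntegral.integral_nonneg (by linarith) fun x _ => by positivity
  have f2 : (∫ x in a..b, -(Y / ((x - σ) ^ 2 + Y ^ 2))) = -∫ x in a..b, Y / ((x - σ) ^ 2 + Y ^ 2) :=
    intervalIntegral.integral_neg
  have f4 : (∫ y in (t - Y)..(t + Y), -((σ - a) / ((σ - a) ^ 2 + (y - t) ^ 2))) =
      -∫ y in (t - Y)..(t + Y), (σ - a) / ((σ - a) ^ 2 + (y - t) ^ 2) := intervalIntegral.integral_neg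
  have f4' : 0 ≤ ∫ y in (t - Y)..(t + Y), (σ - a) / ((σ - a) ^ 2 + (y - t) ^ 2) :=
    intervalIntegral.integral_nonneg (by linarith) fun x _ => by positivity
  have hc3 : Continuous fun y : ℝ => (b - σ) / ((b - σ) ^ 2 + (y - t) ^ 2) := by
    refine Continuous.div continuous_const (by fun_prop) fun y => ?_
    positivity
  have f3 : 1 ≤ ∫ y in (t - Y)..(t + Y), (b - σ) / ((b - σ) ^ 2 + (y - t) ^ 2) := by
    have g1 : ∫ y in (t - (b - σ))..(t + (b - σ)), (b - σ) / ((b - σ) ^ 2 + (y - t) ^ 2) ≤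
        ∫ y in (t - Y)..(t + Y), (b - σ) / ((b - σ) ^ 2 + (y - t) ^ 2) := by
      refine intervalIntegral.integral_mono_interval (by linarith) (by linarith) (by linarith)
        (Eventually.of_forall fun y => ?_) (hc3.intervalIntegrable _ _)
      simp only [Pi.zero_apply]
      positivity
    refine le_trans ?_ g1
    have g2 : ∫ y in (t - (b - σ))..(t + (b - σ)), 1 / (2 * (b - σ)) ≤
        ∫ y in (t - (b - σ))..(t + (b - σ)), (b - σ) / ((b - σ) ^ 2 + (y - t) ^ 2) := by
      refine intervalIntegral.integral_mono_on (by linarith) (intervalIntegrable_const)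
        (hc3.intervalIntegrable _ _) fun y hy => ?_
      have h1 : (y - t) ^ 2 ≤ (b - σ) ^ 2 := by
        have := hy.1
        have := hy.2
        nlinarith
      rw [div_le_div_iff₀ (by positivity) (by positivity)]
      nlinarith
    refine le_trans (le_of_eq ?_) g2
    rw [intervalIntegral.integral_const]
    have : t + (b - σ) - (t - (b - σ)) = 2 * (b - σ) := by ring
    rw [this, smul_eq_mul]
    field_simp
  rw [f2, f4]
  linarith

/-- the bound with finite rectangles -/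
lemma strip_fin {F : ℂ → ℂ} {K : ℝ} {B : ℕ} (ha : a < σ) (hb : σ < b)
    (hd : ∀ w : ℂ, a ≤ w.re → w.re ≤ b → DifferentiableAt ℂ F w) (hK : 0 ≤ K)
    (hg : ∀ w : ℂ, a ≤ w.re → w.re ≤ b → ‖F w‖ ≤ K * (1 + |w.im|) ^ B * Real.exp (-(w.im - t) ^ 2))
    (hIa : Integrable fun y : ℝ => ‖F (a + y * I)‖) (hIb : Integrable fun y : ℝ => ‖F (b + y * I)‖)
    (hY : 1 ≤ Y) (hYb : b - σ ≤ Y) :
    ‖F (σ + t * I)‖ ≤ 2 * (b - a) * (K * (1 + |t| + Y) ^ B * Real.exp (-Y ^ 2)) +
      ((∫ y : ℝ, ‖F (b + y * I)‖) / (b - σ) + (∫ y : ℝ, ‖F (a + y * I)‖) / (σ - a)) := by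
  set s : ℂ := σ + t * I with hs
  have hsre : s.re = σ := by simp [hs]
  have hsim : s.im = t := by simp [hs]
  have hY0 : 0 < Y := by linarith
  have hcb : 0 < b - σ := by linarith
  have hca : 0 < σ - a := by linarith
  have hRn : ((uIcc a b) ×ℂ (uIcc (t - Y) (t + Y))) ∈ 𝓝 s := by
    have hO : IsOpen (Ioo a b ×ℂ Ioo (t - Y) (t + Y)) := isOpen_Ioo.reProdIm isOpen_Ioo
    refine Filter.mem_of_superset (hO.mem_nhds ?_) ?_
    · rw [Complex.mem_reProdIm, hsre, hsim]
      exact ⟨⟨ha, hb⟩, ⟨by linarith, by linarith⟩⟩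
    · intro w hw
      rw [Complex.mem_reProdIm] at hw ⊢
      rw [uIcc_of_le (show a ≤ b by linarith), uIcc_of_le (show t - Y ≤ t + Y by linarith)]
      exact ⟨Ioo_subset_Icc_self hw.1, Ioo_subset_Icc_self hw.2⟩
  have hFd : DifferentiableOn ℂ F ((uIcc a b) ×ℂ (uIcc (t - Y) (t + Y))) := by
    intro w hw
    rw [Complex.mem_reProdIm, uIcc_of_le (show a ≤ b by linarith)] at hw
    exact (hd w hw.1.1 hw.1.2).differentiableWithinAt
  have hG : DifferentiableOn ℂ (dslope F s) ((uIcc a b) ×ℂ (uIcc (t - Y) (t + Y))) :=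
    (Complex.differentiableOn_dslope hRn).2 hFd
  have h0 := Complex.integral_boundary_rect_eq_zero_of_differentiableOn (dslope F s) ⟨a, t - Y⟩ ⟨b, t + Y⟩ hG
  simp only at h0
  have hne : ∀ w : ℂ, w ≠ s → dslope F s w = F w * (w - s)⁻¹ - F s * (w - s)⁻¹ := by
    intro w hw
    rw [dslope_of_ne _ hw, slope_def_field]
    rw [div_eq_mul_inv]
    ring
  -- continuity
  have cF : ∀ w : ℂ, a ≤ w.re → w.re ≤ b → ContinuousAt F w := fun w h1 h2 => (hd w h1 h2).continuousAt
  have cv : ∀ α : ℝ, a ≤ α → α ≤ b → Continuous fun y : ℝ => F (α + y * I) := by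
    intro α h1 h2
    rw [continuous_iff_continuousAt]
    intro y
    exact ContinuousAt.comp (f := fun y : ℝ => ((α : ℂ) + y * I)) (cF _ (by simpa using h1) (by simpa using h2))
      (by fun_prop)
  have ch : ∀ η : ℝ, ContinuousOn (fun x : ℝ => F (x + η * I)) (Icc a b) := by
    intro η x hx
    refine ContinuousAt.continuousWithinAt ?_
    exact ContinuousAt.comp (f := fun x : ℝ => ((x : ℂ) + η * I)) (cF _ (by simpa using hx.1) (by simpa using hx.2))
      (by fun_prop)
  have side_h : ∀ η : ℝ, η ≠ t → (∫ x in a..b, dslope F s (x + η * I)) =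
      (∫ x in a..b, F (x + η * I) * ((x : ℂ) + η * I - s)⁻¹) -
        F s * ∫ x in a..b, ((x : ℂ) + η * I - s)⁻¹ := by
    intro η hη
    have j1 : IntervalIntegrable (fun x : ℝ => F (x + η * I) * ((x : ℂ) + η * I - s)⁻¹) volume a b := by
      refine ContinuousOn.intervalIntegrable ?_
      rw [uIcc_of_le (show a ≤ b by linarith)]
      exact (ch η).mul ((hor_int η hη).mono (subset_univ _))
    have j2 : IntervalIntegrable (fun x : ℝ => ((x : ℂ) + η * I - s)⁻¹) volume a b :=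
      ((hor_int η hη).mono (subset_univ _)).intervalIntegrable
    rw [← intervalIntegral.integral_const_mul, ← intervalIntegral.integral_sub j1 (j2.const_mul _)]
    refine intervalIntegral.integral_congr fun x _ => ?_
    refine hne _ fun h => hη ?_
    have := congrArg Complex.im h
    rw [hsim] at this
    simpa using this
  have side_v : ∀ α : ℝ, a ≤ α → α ≤ b → α ≠ σ → (∫ y in (t - Y)..(t + Y), dslope F s (α + y * I)) =
      (∫ y in (t - Y)..(t + Y), F (α + y * I) * ((α : ℂ) + y * I - s)⁻¹) -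
        F s * ∫ y in (t - Y)..(t + Y), ((α : ℂ) + y * I - s)⁻¹ := by
    intro α h1 h2 hα
    have j1 : IntervalIntegrable (fun y : ℝ => F (α + y * I) * ((α : ℂ) + y * I - s)⁻¹) volume (t - Y) (t + Y) := by
      refine ContinuousOn.intervalIntegrable ?_
      exact (cv α h1 h2).continuousOn.mul ((ver_int α hα).mono (subset_univ _))
    have j2 : IntervalIntegrable (fun y : ℝ => ((α : ℂ) + y * I - s)⁻¹) volume (t - Y) (t + Y) :=
      ((ver_int α hα).mono (subset_univ _)).intervalIntegrable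
    rw [← intervalIntegral.integral_const_mul, ← intervalIntegral.integral_sub j1 (j2.const_mul _)]
    refine intervalIntegral.integral_congr fun y _ => ?_
    refine hne _ fun h => hα ?_
    have := congrArg Complex.re h
    rw [hsre] at this
    simpa using this
  rw [side_h (t - Y) (by linarith), side_h (t + Y) (by linarith), side_v b (by linarith) le_rfl (by linarith),
    side_v a le_rfl (by linarith) (by linarith)] at h0
  have hW := W_ge (t := t) ha hb hY0 hYb
  rw [← hs] at hW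
  set W1 := ∫ x in a..b, ((x : ℂ) + ((t - Y : ℝ) : ℂ) * I - s)⁻¹
  set W2 := ∫ x in a..b, ((x : ℂ) + ((t + Y : ℝ) : ℂ) * I - s)⁻¹
  set W3 := ∫ y in (t - Y)..(t + Y), ((b : ℂ) + y * I - s)⁻¹
  set W4 := ∫ y in (t - Y)..(t + Y), ((a : ℂ) + y * I - s)⁻¹
  set P1 := ∫ x in a..b, F (x + ((t - Y : ℝ) : ℂ) * I) * ((x : ℂ) + ((t - Y : ℝ) : ℂ) * I - s)⁻¹ with hP1
  set P2 := ∫ x in a..b, F (x + ((t + Y : ℝ) : ℂ) * I) * ((x : ℂ) + ((t + Y : ℝ) : ℂ) * I - s)⁻¹ with hP2
  set P3 := ∫ y in (t - Y)..(t + Y), F (b + y * I) * ((b : ℂ) + y * I - s)⁻¹ with hP3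
  set P4 := ∫ y in (t - Y)..(t + Y), F (a + y * I) * ((a : ℂ) + y * I - s)⁻¹ with hP4
  simp only [smul_eq_mul] at h0 hW
  have key : F s * (W1 - W2 + I * W3 - I * W4) = P1 - P2 + I * P3 - I * P4 := by
    linear_combination -h0
  have hE : ∀ η : ℝ, |η - t| = Y → ‖∫ x in a..b, F (x + η * I) * ((x : ℂ) + η * I - s)⁻¹‖ ≤
      K * (1 + |t| + Y) ^ B * Real.exp (-Y ^ 2) * (b - a) := by
    intro η hη
    have h1 := intervalIntegral.norm_integral_le_of_norm_le_const (a := a) (b := b)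
      (f := fun x : ℝ => F (x + η * I) * ((x : ℂ) + η * I - s)⁻¹)
      (C := K * (1 + |t| + Y) ^ B * Real.exp (-Y ^ 2)) ?_
    · rwa [abs_of_pos (show 0 < b - a by linarith)] at h1
    · intro x hx
      rw [uIoc_of_le (show a ≤ b by linarith)] at hx
      rw [norm_mul, norm_inv]
      have h2 := hg (x + η * I) (by simpa using hx.1.le) (by simpa using hx.2)
      have him : ((x : ℂ) + η * I).im = η := by simp
      rw [him] at h2
      have h3 : 1 ≤ ‖(x : ℂ) + η * I - s‖ := by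
        have h4 := Complex.abs_im_le_norm ((x : ℂ) + η * I - s)
        rw [Complex.sub_im, him, hsim, hη] at h4
        linarith
      have h5 : (‖(x : ℂ) + η * I - s‖)⁻¹ ≤ 1 := inv_le_one_of_one_le₀ h3
      have h6 : (η - t) ^ 2 = Y ^ 2 := by rw [← hη, sq_abs]
      rw [h6] at h2
      have h7 : |η| ≤ |t| + Y := by
        rw [← hη]
        have := abs_add_le (η - t) t
        rw [sub_add_cancel] at this
        linarith
      calc ‖F (x + η * I)‖ * (‖(x : ℂ) + η * I - s‖)⁻¹ ≤ ‖F (x + η * I)‖ * 1 :=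
            mul_le_mul_of_nonneg_left h5 (norm_nonneg _)
        _ ≤ K * (1 + |η|) ^ B * Real.exp (-Y ^ 2) := by rw [mul_one]; exact h2
        _ ≤ K * (1 + |t| + Y) ^ B * Real.exp (-Y ^ 2) := by
            have : 1 + |η| ≤ 1 + |t| + Y := by linarith
            gcongr
  have hV : ∀ α c : ℝ, a ≤ α → α ≤ b → 0 < c → |α - σ| = c → (Integrable fun y : ℝ => ‖F (α + y * I)‖) →
      ‖∫ y in (t - Y)..(t + Y), F (α + y * I) * ((α : ℂ) + y * I - s)⁻¹‖ ≤
        (∫ y : ℝ, ‖F (α + y * I)‖) / c := by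
    intro α c h1 h2 hc hα hI
    have h3 : ‖∫ y in (t - Y)..(t + Y), F (α + y * I) * ((α : ℂ) + y * I - s)⁻¹‖ ≤
        ∫ y in (t - Y)..(t + Y), ‖F (α + y * I)‖ / c := by
      refine intervalIntegral.norm_integral_le_of_norm_le (by linarith) ?_ ?_
      · refine Eventually.of_forall fun y _ => ?_
        rw [norm_mul, norm_inv, ← div_eq_mul_inv]
        refine div_le_div_of_nonneg_left (norm_nonneg _) hc ?_
        have h4 := Complex.abs_re_le_norm ((α : ℂ) + y * I - s)
        rw [Complex.sub_re, hsre] at h4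
        have : ((α : ℂ) + y * I).re = α := by simp
        rw [this, hα] at h4
        exact h4
      · exact ((cv α h1 h2).norm.div_const c).intervalIntegrable _ _
    refine h3.trans ?_
    rw [intervalIntegral.integral_div]
    refine div_le_div_of_nonneg_right ?_ hc.le
    rw [intervalIntegral.integral_of_le (by linarith)]
    exact setIntegral_le_integral hI (Eventually.of_forall fun y => norm_nonneg _)
  have b1 := hE (t - Y) (by rw [show t - Y - t = -Y by ring, abs_neg, abs_of_pos hY0])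
  have b2 := hE (t + Y) (by rw [show t + Y - t = Y by ring, abs_of_pos hY0])
  have b3 := hV b (b - σ) (by linarith) le_rfl hcb (abs_of_pos hcb) hIb
  have b4 := hV a (σ - a) le_rfl (by linarith) hca (by rw [abs_sub_comm]; exact abs_of_pos hca) hIa
  rw [← hP1] at b1
  rw [← hP2] at b2
  rw [← hP3] at b3
  rw [← hP4] at b4
  have n1 : ‖F s‖ ≤ ‖P1 - P2 + I * P3 - I * P4‖ := by
    rw [← key, norm_mul]
    exact le_mul_of_one_le_right (norm_nonneg _) hW
  have n2 : ‖P1 - P2 + I * P3 - I * P4‖ ≤ ‖P1‖ + ‖P2‖ + ‖P3‖ + ‖P4‖ := by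
    have m1 := norm_sub_le (P1 - P2 + I * P3) (I * P4)
    have m2 := norm_add_le (P1 - P2) (I * P3)
    have m3 := norm_sub_le P1 P2
    rw [norm_mul, Complex.norm_I, one_mul] at m1 m2
    linarith
  linarith

/-- a function in a strip against the integrals over the two lines -/
theorem strip {F : ℂ → ℂ} {K : ℝ} {B : ℕ} (ha : a < σ) (hb : σ < b)
    (hd : ∀ w : ℂ, a ≤ w.re → w.re ≤ b → DifferentiableAt ℂ F w) (hK : 0 ≤ K)
    (hg : ∀ w : ℂ, a ≤ w.re → w.re ≤ b → ‖F w‖ ≤ K * (1 + |w.im|) ^ B * Real.exp (-(w.im - t) ^ 2))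
    (hIa : Integrable fun y : ℝ => ‖F (a + y * I)‖) (hIb : Integrable fun y : ℝ => ‖F (b + y * I)‖) :
    ‖F (σ + t * I)‖ ≤
      (∫ y : ℝ, ‖F (b + y * I)‖) / (b - σ) + (∫ y : ℝ, ‖F (a + y * I)‖) / (σ - a) := by
  set c : ℝ := 1 + |t| with hc
  set A := (∫ y : ℝ, ‖F (b + y * I)‖) / (b - σ) + (∫ y : ℝ, ‖F (a + y * I)‖) / (σ - a)
  have hT : Tendsto (fun Y : ℝ => 2 * (b - a) * (K * (Real.exp c * ((c + Y) ^ B * Real.exp (-(c + Y))))) + A)
      atTop (𝓝 (2 * (b - a) * (K * (Real.exp c * 0)) + A)) := by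
    refine Tendsto.add ?_ tendsto_const_nhds
    refine Tendsto.const_mul _ (Tendsto.const_mul _ (Tendsto.const_mul _ ?_))
    exact (Real.tendsto_pow_mul_exp_neg_atTop_nhds_zero B).comp (tendsto_atTop_add_const_left _ c tendsto_id)
  rw [mul_zero, mul_zero, mul_zero, zero_add] at hT
  refine ge_of_tendsto hT ?_
  filter_upwards [eventually_ge_atTop (1:ℝ), eventually_ge_atTop (b - σ)] with Y hY1 hY2
  refine (strip_fin ha hb hd hK hg hIa hIb hY1 hY2).trans ?_
  have h1 : Real.exp (-Y ^ 2) ≤ Real.exp c * Real.exp (-(c + Y)) := by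
    rw [← Real.exp_add]
    refine Real.exp_le_exp.2 ?_
    nlinarith
  have hba : 0 ≤ 2 * (b - a) := by linarith
  have hc0 : 0 ≤ c + Y := by rw [hc]; positivity
  calc 2 * (b - a) * (K * (1 + |t| + Y) ^ B * Real.exp (-Y ^ 2)) + A
      ≤ 2 * (b - a) * (K * (c + Y) ^ B * (Real.exp c * Real.exp (-(c + Y)))) + A := by
        have : K * (1 + |t| + Y) ^ B * Real.exp (-Y ^ 2) ≤
            K * (c + Y) ^ B * (Real.exp c * Real.exp (-(c + Y))) :=
          mul_le_mul_of_nonneg_left h1 (by positivity)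
        have := mul_le_mul_of_nonneg_left this hba
        linarith
    _ = _ := by ring

end

end Pool.Agent.D0H85.DM
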